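import Pool.Agent.W2helper89.MC.Stm

/-!
Project MC (problem MP_6072c5_lc), piece SIM: reductions in the sense of a model of PA simulate
Turing reductions.
-/

set_option autoImplicit false
set_option linter.unusedSectionVars false

universe u

namespace Pool.Agent.W2helper52.MC

open Pool.Agent.Helper743 (TR RecT join pre)
open Pool.Agent.Helper425.PA
open Pool.Agent.W2helper89.MC

variable {M : Type u} [CommSemiring M] [LinearOrder M] [PeanoModel M]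

/-- relations on `M` which are c.e. in `B`, with a monotone verifier -/
def CE (B : Set M) (R : (ℕ → M) → Prop) : Prop :=
  ∃ W : M → M → (ℕ → M) → Prop, Sigma1 (fun w => W (w 0) (w 1) (fun i => w (i + 2))) ∧
    (∀ H₀ H₁ K₀ K₁ v, El H₀ ⊆ El K₀ → El H₁ ⊆ El K₁ → W H₀ H₁ v → W K₀ K₁ v) ∧
    ∀ v, R v ↔ ∃ H₀ H₁ : M, El H₀ ⊆ B ∧ El H₁ ⊆ Bᶜ ∧ W H₀ H₁ v

lemma exists_empty : ∃ k : M, El k = ∅ := by
  obtain ⟨k, hk⟩ := exists_code_finite (Set.finite_empty : (∅ : Set M).Finite)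
  exact ⟨k, Set.ext fun x => hk x⟩

lemma exists_union (k l : M) : ∃ m : M, El m = El k ∪ El l := by
  obtain ⟨m, hm⟩ := exists_code_union k l
  exact ⟨m, Set.ext fun x => hm x⟩

lemma CE.congr {B : Set M} {R S : (ℕ → M) → Prop} (h : CE B R) (hRS : ∀ v, S v ↔ R v) :
    CE B S := by
  have : S = R := funext fun v => propext (hRS v)
  rw [this]; exact h

lemma sub_sigma1 {W : M → M → (ℕ → M) → Prop}
    (hW : Sigma1 (fun w => W (w 0) (w 1) (fun i => w (i + 2))))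
    {f g : (ℕ → M) → M} {σ : ℕ → (ℕ → M) → M} (hf : Tm f) (hg : Tm g) (hσ : ∀ i, Tm (σ i)) :
    Sigma1 (fun v => W (f v) (g v) (fun i => σ i v)) := by
  refine hW.subst (σ := fun i w => match i with
    | 0 => f w
    | 1 => g w
    | i + 2 => σ i w) fun i => ?_
  match i with
  | 0 => exact hf
  | 1 => exact hg
  | i + 2 => exact hσ i

/-- make the verifier monotone -/
lemma CE.of_nonmono {B : Set M} {R : (ℕ → M) → Prop} (W : M → M → (ℕ → M) → Prop)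
    (hW : Sigma1 (fun w => W (w 0) (w 1) (fun i => w (i + 2))))
    (h : ∀ v, R v ↔ ∃ H₀ H₁ : M, El H₀ ⊆ B ∧ El H₁ ⊆ Bᶜ ∧ W H₀ H₁ v) : CE B R := by
  refine ⟨fun H₀ H₁ v => ∃ A₀ A₁, ((∀ x, Mem x A₀ → Mem x H₀) ∧ (∀ x, Mem x A₁ → Mem x H₁)) ∧
    W A₀ A₁ v, ?_, ?_, fun v => ?_⟩
  · refine Sigma1.ex' (Sigma1.ex' (Sigma1.and (Delta0.sigma1 (Delta0.and ?_ ?_)) ?_))
    · exact Delta0.ballMem (Tm.var 1) (Delta0.mem (Tm.var 0) (Tm.var 3))
    · exact Delta0.ballMem (Tm.var 0) (Delta0.mem (Tm.var 0) (Tm.var 4))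
    · exact sub_sigma1 hW (Tm.var 1) (Tm.var 0) (σ := fun i w => w (i + 4)) fun i => Tm.var _
  · rintro H₀ H₁ K₀ K₁ v h0 h1 ⟨A₀, A₁, ⟨h2, h3⟩, h4⟩
    exact ⟨A₀, A₁, ⟨fun x hx => h0 (h2 x hx), fun x hx => h1 (h3 x hx)⟩, h4⟩
  · rw [h]
    constructor
    · rintro ⟨H₀, H₁, h0, h1, h2⟩
      exact ⟨H₀, H₁, h0, h1, H₀, H₁, ⟨fun x hx => hx, fun x hx => hx⟩, h2⟩
    · rintro ⟨H₀, H₁, h0, h1, A₀, A₁, ⟨h2, h3⟩, h4⟩
      exact ⟨A₀, A₁, fun x hx => h0 (h2 x hx), fun x hx => h1 (h3 x hx), h4⟩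

lemma CE.of_sigma1 (B : Set M) {R : (ℕ → M) → Prop} (h : Sigma1 R) : CE B R := by
  refine ⟨fun _ _ v => R v, ?_, fun _ _ _ _ _ _ _ h => h, fun v => ?_⟩
  · exact h.subst (σ := fun i w => w (i + 2)) fun i => Tm.var _
  · obtain ⟨k, hk⟩ := exists_empty (M := M)
    constructor
    · intro hv; exact ⟨k, k, by rw [hk]; exact Set.empty_subset _, by
        rw [hk]; exact Set.empty_subset _, hv⟩
    · rintro ⟨_, _, _, _, hv⟩; exact hv

lemma CE.of_delta0 (B : Set M) {R : (ℕ → M) → Prop} (h : Delta0 R) : CE B R :=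
  CE.of_sigma1 B h.sigma1

lemma CE.subst {B : Set M} {R : (ℕ → M) → Prop} (h : CE B R) {σ : ℕ → (ℕ → M) → M}
    (hσ : ∀ i, Tm (σ i)) : CE B (fun v => R (fun i => σ i v)) := by
  obtain ⟨W, h1, h2, h3⟩ := h
  refine ⟨fun H₀ H₁ v => W H₀ H₁ (fun i => σ i v), ?_, fun H₀ H₁ K₀ K₁ v h0 h1 h => 
    h2 _ _ _ _ _ h0 h1 h, fun v => h3 _⟩
  exact sub_sigma1 h1 (Tm.var 0) (Tm.var 1) (σ := fun i w => σ i (fun j => w (j + 2)))
    fun i => (hσ i).tail.tail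

lemma CE.and {B : Set M} {R S : (ℕ → M) → Prop} (hR : CE B R) (hS : CE B S) :
    CE B (fun v => R v ∧ S v) := by
  obtain ⟨W, h1, h2, h3⟩ := hR
  obtain ⟨V, k1, k2, k3⟩ := hS
  refine ⟨fun H₀ H₁ v => W H₀ H₁ v ∧ V H₀ H₁ v, Sigma1.and h1 k1,
    fun H₀ H₁ K₀ K₁ v h h' hh => ⟨h2 _ _ _ _ _ h h' hh.1, k2 _ _ _ _ _ h h' hh.2⟩, fun v => ?_⟩
  simp only
  rw [h3, k3]
  constructor
  · rintro ⟨⟨H₀, H₁, a, b, c⟩, ⟨K₀, K₁, a', b', c'⟩⟩
    obtain ⟨L₀, h0⟩ := exists_union H₀ K₀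
    obtain ⟨L₁, h1⟩ := exists_union H₁ K₁
    refine ⟨L₀, L₁, by rw [h0]; exact Set.union_subset a a',
      by rw [h1]; exact Set.union_subset b b', h2 _ _ _ _ _ ?_ ?_ c, k2 _ _ _ _ _ ?_ ?_ c'⟩
    · rw [h0]; exact Set.subset_union_left
    · rw [h1]; exact Set.subset_union_left
    · rw [h0]; exact Set.subset_union_right
    · rw [h1]; exact Set.subset_union_right
  · rintro ⟨H₀, H₁, a, b, c, c'⟩
    exact ⟨⟨H₀, H₁, a, b, c⟩, ⟨H₀, H₁, a, b, c'⟩⟩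

lemma CE.ex {B : Set M} {R : M → (ℕ → M) → Prop}
    (h : CE B (fun w => R (w 0) (fun i => w (i + 1)))) : CE B (fun v => ∃ x, R x v) := by
  obtain ⟨W, h1, h2, h3⟩ := h
  refine ⟨fun H₀ H₁ v => ∃ x, W H₀ H₁ (cons x v), ?_, ?_, fun v => ?_⟩
  · refine Sigma1.ex' ?_
    refine (sub_sigma1 h1 (Tm.var 1) (Tm.var 2) (σ := fun i w => match i with
      | 0 => w 0
      | i + 1 => w (i + 3)) fun i => ?_).congr fun w => ?_
    · match i with
      | 0 => exact Tm.var 0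
      | i + 1 => exact Tm.var _
    · have : (cons (w 0) fun i => w (i + 2 + 1)) = fun i => (match i with
          | 0 => w 0
          | i + 1 => w (i + 3) : M) := by
        funext i; cases i <;> rfl
      rw [this]
  · rintro H₀ H₁ K₀ K₁ v a b ⟨x, hx⟩
    exact ⟨x, h2 _ _ _ _ _ a b hx⟩
  · have key : ∀ x, R x v ↔ ∃ H₀ H₁ : M, El H₀ ⊆ B ∧ El H₁ ⊆ Bᶜ ∧ W H₀ H₁ (cons x v) :=
      fun x => h3 (cons x v)
    constructor
    · rintro ⟨x, hx⟩
      obtain ⟨H₀, H₁, a, b, c⟩ := (key x).1 hx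
      exact ⟨H₀, H₁, a, b, x, c⟩
    · rintro ⟨H₀, H₁, a, b, x, c⟩
      exact ⟨x, (key x).2 ⟨H₀, H₁, a, b, c⟩⟩

/-- bounded universal quantifier with a standard bound -/
lemma CE.ball {B : Set M} (hω : CE B (fun v => v 0 ∈ omega M)) {f : (ℕ → M) → M} (hf : Tm f)
    {R : M → (ℕ → M) → Prop} (h : CE B (fun w => R (w 0) (fun i => w (i + 1)))) :
    CE B (fun v => f v ∈ omega M ∧ ∀ x, x < f v → R x v) := by
  obtain ⟨W, h1, h2, h3⟩ := h
  have hω' : CE B (fun v => f v ∈ omega M) := hω.subst (σ := fun _ w => f w) fun _ => hf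
  obtain ⟨V, k1, k2, k3⟩ := hω'
  refine ⟨fun H₀ H₁ v => V H₀ H₁ v ∧ ∀ x, x < f v → W H₀ H₁ (cons x v), Sigma1.and k1 ?_, ?_,
    fun v => ?_⟩
  · refine Sigma1.ball' hf.tail.tail ?_
    refine (sub_sigma1 h1 (Tm.var 1) (Tm.var 2) (σ := fun i w => match i with
      | 0 => w 0
      | i + 1 => w (i + 3)) fun i => ?_).congr fun w => ?_
    · match i with
      | 0 => exact Tm.var 0
      | i + 1 => exact Tm.var _
    · have : (cons (w 0) fun i => w (i + 2 + 1)) = fun i => (match i with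
          | 0 => w 0
          | i + 1 => w (i + 3) : M) := by
        funext i; cases i <;> rfl
      rw [this]
  · rintro H₀ H₁ K₀ K₁ v a b ⟨c, d⟩
    exact ⟨k2 _ _ _ _ _ a b c, fun x hx => h2 _ _ _ _ _ a b (d x hx)⟩
  · have key : ∀ x, R x v ↔ ∃ H₀ H₁ : M, El H₀ ⊆ B ∧ El H₁ ⊆ Bᶜ ∧ W H₀ H₁ (cons x v) :=
      fun x => h3 (cons x v)
    constructor
    · rintro ⟨hv, hR⟩
      obtain ⟨K₀, K₁, a, b, c⟩ := (k3 v).1 hv
      obtain ⟨n, hn⟩ := hv
      have main : ∀ m : ℕ, m ≤ n → ∃ H₀ H₁ : M, El H₀ ⊆ B ∧ El H₁ ⊆ Bᶜ ∧ V H₀ H₁ v ∧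
          ∀ x : M, x < m → W H₀ H₁ (cons x v) := by
        intro m
        induction m with
        | zero =>
          intro _
          refine ⟨K₀, K₁, a, b, c, fun x hx => ?_⟩
          rw [Nat.cast_zero] at hx
          exact absurd hx (not_lt.2 zero_le)
        | succ m ih =>
          intro hm
          obtain ⟨H₀, H₁, a1, a2, a3, a4⟩ := ih (by omega)
          have hmn : (m : M) < f v := by rw [← hn]; exact Nat.cast_lt.2 hm
          obtain ⟨J₀, J₁, b1, b2, b3⟩ := (key m).1 (hR m hmn)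
          obtain ⟨L₀, e0⟩ := exists_union H₀ J₀
          obtain ⟨L₁, e1⟩ := exists_union H₁ J₁
          refine ⟨L₀, L₁, by rw [e0]; exact Set.union_subset a1 b1,
            by rw [e1]; exact Set.union_subset a2 b2, k2 _ _ _ _ _ ?_ ?_ a3, fun x hx => ?_⟩
          · rw [e0]; exact Set.subset_union_left
          · rw [e1]; exact Set.subset_union_left
          · rw [Nat.cast_succ, lt_succ_iff'] at hx
            rcases hx.lt_or_eq with h | rfl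
            · refine h2 _ _ _ _ _ ?_ ?_ (a4 x h)
              · rw [e0]; exact Set.subset_union_left
              · rw [e1]; exact Set.subset_union_left
            · refine h2 _ _ _ _ _ ?_ ?_ b3
              · rw [e0]; exact Set.subset_union_right
              · rw [e1]; exact Set.subset_union_right
      obtain ⟨H₀, H₁, a1, a2, a3, a4⟩ := main n le_rfl
      refine ⟨H₀, H₁, a1, a2, a3, fun x hx => a4 x ?_⟩
      rw [hn]; exact hx
    · rintro ⟨H₀, H₁, a, b, c, d⟩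
      exact ⟨(k3 v).2 ⟨H₀, H₁, a, b, c⟩, fun x hx => (key x).2 ⟨H₀, H₁, a, b, d x hx⟩⟩

/-! ### pairs of natural numbers -/

/-- the graph of `Nat.pair` in `M` -/
def PP (x a b : M) : Prop := (a < b ∧ x = b * b + a) ∨ (b ≤ a ∧ x = a * a + a + b)

lemma PP.delta0 {f g h : (ℕ → M) → M} (hf : Tm f) (hg : Tm g) (hh : Tm h) :
    Delta0 (fun v => PP (f v) (g v) (h v)) :=
  Delta0.or (Delta0.and (Delta0.lt hg hh) (Delta0.eq hf ((hh.mul hh).add hg)))
    (Delta0.and (Delta0.le hh hg) (Delta0.eq hf (((hg.mul hg).add hg).add hh)))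

lemma PP_nat {x a b : ℕ} : PP (x : M) a b ↔ x = Nat.pair a b := by
  unfold PP Nat.pair
  by_cases h : a < b
  · have h' : ¬ (b : M) ≤ a := not_le.2 (Nat.cast_lt.2 h)
    simp only [Nat.cast_lt, h, true_and, h', false_and, or_false, if_true]
    rw [← Nat.cast_mul, ← Nat.cast_add, Nat.cast_inj]
  · have h' : (b : M) ≤ a := Nat.cast_le.2 (not_lt.1 h)
    simp only [Nat.cast_lt, h, false_and, h', true_and, false_or, if_false]
    rw [← Nat.cast_mul, ← Nat.cast_add, ← Nat.cast_add, Nat.cast_inj]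

lemma PP_std {x a b : M} (h : PP x a b) (hx : x ∈ omega M) : a ∈ omega M ∧ b ∈ omega M := by
  rcases h with ⟨h1, rfl⟩ | ⟨h1, rfl⟩
  · have hb : b ≤ b * b + a := by
      rcases eq_or_ne b 0 with rfl | hb
      · exact zero_le
      · calc b = b * 1 := (mul_one _).symm
          _ ≤ b * b := mul_le_mul' le_rfl (one_le_of_ne_zero b hb)
          _ ≤ _ := le_self_add
    exact ⟨mem_omega_of_le le_add_self hx, mem_omega_of_le hb hx⟩
  · exact ⟨mem_omega_of_le (le_trans le_add_self le_self_add) hx, mem_omega_of_le le_add_self hx⟩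

/-- the graph of a partial function as a relation on `M` -/
def G (φ : ℕ →. ℕ) (x y : M) : Prop := ∃ n m : ℕ, x = n ∧ y = m ∧ m ∈ φ n

lemma G_nat {φ : ℕ →. ℕ} {n m : ℕ} : G (φ := φ) (n : M) m ↔ m ∈ φ n := by
  constructor
  · rintro ⟨n', m', h1, h2, h3⟩
    rw [Nat.cast_inj] at h1 h2
    rw [h1, h2]; exact h3
  · intro h; exact ⟨n, m, rfl, rfl, h⟩

def GCE (B : Set M) (φ : ℕ →. ℕ) : Prop := CE B (fun v => G φ (v 0) (v 1))

lemma GCE.sub {B : Set M} {φ : ℕ →. ℕ} (h : GCE B φ) {f g : (ℕ → M) → M} (hf : Tm f) (hg : Tm g) :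
    CE B (fun v => G φ (f v) (g v)) := by
  refine (CE.subst (R := fun v => G φ (v 0) (v 1)) h (σ := fun i w => match i with
    | 0 => f w
    | _ + 1 => g w) fun i => ?_)
  match i with
  | 0 => exact hf
  | i + 1 => exact hg

lemma om_sub {B : Set M} (hω : CE B (fun v => v 0 ∈ omega M)) {f : (ℕ → M) → M} (hf : Tm f) :
    CE B (fun v => f v ∈ omega M) := hω.subst (σ := fun _ w => f w) fun _ => hf


lemma PP_nat' {y : M} {a b : ℕ} : PP y (a : M) b ↔ y = (Nat.pair a b : ℕ) := by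
  constructor
  · intro h
    have hy : y ∈ omega M := by
      rcases h with ⟨_, rfl⟩ | ⟨_, rfl⟩
      · exact ⟨b * b + a, by push_cast; rfl⟩
      · exact ⟨a * a + a + b, by push_cast; rfl⟩
    obtain ⟨n, rfl⟩ := hy
    rw [PP_nat.1 h]
  · rintro rfl
    exact PP_nat.2 rfl

lemma G_iff {φ : ℕ →. ℕ} {R : M → M → Prop}
    (h1 : ∀ n m : ℕ, m ∈ φ n → R n m) (h2 : ∀ x y, R x y → x ∈ omega M ∧ y ∈ omega M)
    (h3 : ∀ n m : ℕ, R n m → m ∈ φ n) (x y : M) : G φ x y ↔ R x y := by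
  constructor
  · rintro ⟨n, m, rfl, rfl, h⟩; exact h1 n m h
  · intro h
    obtain ⟨⟨n, rfl⟩, ⟨m, rfl⟩⟩ := h2 x y h
    exact G_nat.2 (h3 n m h)

lemma gce_zero {B : Set M} (hω : CE B (fun v => v 0 ∈ omega M)) :
    GCE B (fun _ => (0 : Part ℕ)) := by
  refine (CE.and hω (CE.of_delta0 B (Delta0.eq (Tm.var 1) (Tm.const 0)))).congr fun v => ?_
  refine G_iff (R := fun x y => x ∈ omega M ∧ y = 0) ?_ ?_ ?_ _ _
  · intro n m h
    have : m = 0 := Part.mem_some_iff.1 h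
    subst this
    exact ⟨⟨n, rfl⟩, Nat.cast_zero⟩
  · rintro x y ⟨h, rfl⟩; exact ⟨h, 0, Nat.cast_zero⟩
  · rintro n m ⟨_, h⟩
    have : m = 0 := by rwa [← Nat.cast_zero, Nat.cast_inj] at h
    subst this
    exact Part.mem_some _

lemma gce_succ {B : Set M} (hω : CE B (fun v => v 0 ∈ omega M)) :
    GCE B (Nat.succ : ℕ →. ℕ) := by
  refine (CE.and hω (CE.of_delta0 B (Delta0.eq (Tm.var 1)
    ((Tm.var 0).add (Tm.const 1))))).congr fun v => ?_
  refine G_iff (R := fun x y => x ∈ omega M ∧ y = x + 1) ?_ ?_ ?_ _ _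
  · intro n m h
    have : m = n + 1 := Part.mem_some_iff.1 h
    subst this
    exact ⟨⟨n, rfl⟩, Nat.cast_succ _⟩
  · rintro x y ⟨⟨n, rfl⟩, rfl⟩; exact ⟨⟨n, rfl⟩, n + 1, Nat.cast_succ _⟩
  · rintro n m ⟨_, h⟩
    have : m = n + 1 := by rwa [← Nat.cast_succ, Nat.cast_inj] at h
    subst this
    exact Part.mem_some _

lemma gce_left {B : Set M} (hω : CE B (fun v => v 0 ∈ omega M)) :
    GCE B (fun n => Part.some (Nat.unpair n).1) := by
  refine (CE.and hω (CE.ex (R := fun b v => PP (v 0) (v 1) b) (CE.of_delta0 B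
    (PP.delta0 (Tm.var 1) (Tm.var 2) (Tm.var 0))))).congr fun v => ?_
  refine G_iff (R := fun x y => x ∈ omega M ∧ ∃ b, PP x y b) ?_ ?_ ?_ _ _
  · intro n m h
    have : m = (Nat.unpair n).1 := Part.mem_some_iff.1 h
    subst this
    exact ⟨⟨n, rfl⟩, ((Nat.unpair n).2 : M), PP_nat.2 (Nat.pair_unpair n).symm⟩
  · rintro x y ⟨hx, b, hb⟩
    exact ⟨hx, (PP_std hb hx).1⟩
  · rintro n m ⟨hx, b, hb⟩
    obtain ⟨_, b, rfl⟩ := PP_std hb hx
    rw [PP_nat.1 hb, Nat.unpair_pair]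
    exact Part.mem_some _

lemma gce_right {B : Set M} (hω : CE B (fun v => v 0 ∈ omega M)) :
    GCE B (fun n => Part.some (Nat.unpair n).2) := by
  refine (CE.and hω (CE.ex (R := fun b v => PP (v 0) b (v 1)) (CE.of_delta0 B
    (PP.delta0 (Tm.var 1) (Tm.var 0) (Tm.var 2))))).congr fun v => ?_
  refine G_iff (R := fun x y => x ∈ omega M ∧ ∃ b, PP x b y) ?_ ?_ ?_ _ _
  · intro n m h
    have : m = (Nat.unpair n).2 := Part.mem_some_iff.1 h
    subst this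
    exact ⟨⟨n, rfl⟩, ((Nat.unpair n).1 : M), PP_nat.2 (Nat.pair_unpair n).symm⟩
  · rintro x y ⟨hx, b, hb⟩
    exact ⟨hx, (PP_std hb hx).2⟩
  · rintro n m ⟨hx, b, hb⟩
    obtain ⟨⟨b, rfl⟩, _⟩ := PP_std hb hx
    rw [PP_nat.1 hb, Nat.unpair_pair]
    exact Part.mem_some _

lemma gce_pair {B : Set M} {f h : ℕ →. ℕ} (hf : GCE B f) (hh : GCE B h) :
    GCE B (fun n => (Nat.pair <$> f n <*> h n)) := by
  refine (CE.ex (R := fun a v => ∃ b, G f (v 0) a ∧ G h (v 0) b ∧ PP (v 1) a b)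
    (CE.ex (R := fun b v => G f (v 1) (v 0) ∧ G h (v 1) b ∧ PP (v 2) (v 0) b)
    (CE.and (hf.sub (Tm.var 2) (Tm.var 1)) (CE.and (hh.sub (Tm.var 2) (Tm.var 0))
      (CE.of_delta0 B (PP.delta0 (Tm.var 3) (Tm.var 1) (Tm.var 0))))))).congr fun v => ?_
  refine G_iff (R := fun x y => ∃ a b, G f x a ∧ G h x b ∧ PP y a b) ?_ ?_ ?_ _ _
  · intro n m hm
    simp only [Seq.seq, Part.map_eq_map, Part.mem_bind_iff, Part.mem_map_iff, exists_exists_and_eq_and] at hm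
    obtain ⟨a, ha, b, hb, rfl⟩ := hm
    exact ⟨a, b, G_nat.2 ha, G_nat.2 hb, PP_nat.2 rfl⟩
  · rintro x y ⟨a, b, ⟨n, a, rfl, rfl, _⟩, ⟨_, b, _, rfl, _⟩, hy⟩
    exact ⟨⟨n, rfl⟩, ⟨_, (PP_nat'.1 hy).symm⟩⟩
  · rintro n m ⟨a, b, h1, h2, hy⟩
    obtain ⟨_, a, _, rfl, _⟩ := id h1
    obtain ⟨_, b, _, rfl, _⟩ := id h2
    have h1 := G_nat.1 h1
    have h2 := G_nat.1 h2
    rw [PP_nat] at hy
    subst hy
    simp only [Seq.seq, Part.map_eq_map, Part.mem_bind_iff, Part.mem_map_iff, exists_exists_and_eq_and]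
    exact ⟨a, h1, b, h2, rfl⟩

lemma gce_comp {B : Set M} {f h : ℕ →. ℕ} (hf : GCE B f) (hh : GCE B h) :
    GCE B (fun n => h n >>= f) := by
  refine (CE.ex (R := fun a v => G h (v 0) a ∧ G f a (v 1))
    (CE.and (hh.sub (Tm.var 1) (Tm.var 0)) (hf.sub (Tm.var 0) (Tm.var 2)))).congr fun v => ?_
  refine G_iff (R := fun x y => ∃ a, G h x a ∧ G f a y) ?_ ?_ ?_ _ _
  · intro n m hm
    obtain ⟨a, ha, hb⟩ := Part.mem_bind_iff.1 hm
    exact ⟨a, G_nat.2 ha, G_nat.2 hb⟩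
  · rintro x y ⟨a, ⟨n, _, rfl, _, _⟩, ⟨_, m, _, rfl, _⟩⟩
    exact ⟨⟨n, rfl⟩, ⟨m, rfl⟩⟩
  · rintro n m ⟨a, h1, h2⟩
    obtain ⟨_, a, _, rfl, _⟩ := id h1
    exact Part.mem_bind_iff.2 ⟨a, G_nat.1 h1, G_nat.1 h2⟩

lemma gce_rfind {B : Set M} (hω : CE B (fun v => v 0 ∈ omega M)) {f : ℕ →. ℕ} (hf : GCE B f) :
    GCE B (fun a => Nat.rfind fun n => (fun m => decide (m = 0)) <$> f (Nat.pair a n)) := by
  have c1 : CE B (fun v => ∃ q, PP q (v 0) (v 1) ∧ G f q 0) :=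
    CE.ex (R := fun q v => PP q (v 0) (v 1) ∧ G f q 0)
      (CE.and (CE.of_delta0 B (PP.delta0 (Tm.var 0) (Tm.var 1) (Tm.var 2)))
        (hf.sub (Tm.var 0) (Tm.const 0)))
  have c2 : CE B (fun v => v 1 ∈ omega M ∧ ∀ j, j < v 1 → ∃ q w, PP q (v 0) j ∧ w ≠ 0 ∧
      G f q w) := by
    refine CE.ball hω (Tm.var 1) (R := fun j v => ∃ q w, PP q (v 0) j ∧ w ≠ 0 ∧ G f q w) ?_
    refine CE.ex (R := fun q v => ∃ w, PP q (v 1) (v 0) ∧ w ≠ 0 ∧ G f q w) ?_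
    refine CE.ex (R := fun w v => PP (v 0) (v 2) (v 1) ∧ w ≠ 0 ∧ G f (v 0) w) ?_
    exact CE.and (CE.of_delta0 B (PP.delta0 (Tm.var 1) (Tm.var 3) (Tm.var 2)))
      (CE.and (CE.of_delta0 B (Delta0.eq (Tm.var 0) (Tm.const 0)).not)
        (hf.sub (Tm.var 1) (Tm.var 0)))
  refine (CE.and hω (CE.and c1 c2)).congr fun v => ?_
  refine G_iff (R := fun x y => x ∈ omega M ∧ (∃ q, PP q x y ∧ G f q 0) ∧
    (y ∈ omega M ∧ ∀ j, j < y → ∃ q w, PP q x j ∧ w ≠ 0 ∧ G f q w)) ?_ ?_ ?_ _ _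
  · intro n m hm
    obtain ⟨h1, h2⟩ := Nat.mem_rfind.1 hm
    simp only [Part.map_eq_map, Part.mem_map_iff, decide_eq_true_eq, exists_eq_right] at h1
    refine ⟨⟨n, rfl⟩, ⟨(Nat.pair n m : ℕ), PP_nat.2 rfl, ?_⟩, ⟨m, rfl⟩, fun j hj => ?_⟩
    · rw [← Nat.cast_zero]; exact G_nat.2 h1
    · obtain ⟨j, rfl⟩ := mem_omega_of_lt hj
      have h3 := h2 (Nat.cast_lt.1 hj)
      simp only [Part.map_eq_map, Part.mem_map_iff, decide_eq_false_iff_not] at h3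
      obtain ⟨w, hw, hw0⟩ := h3
      refine ⟨(Nat.pair n j : ℕ), w, PP_nat.2 rfl, ?_, G_nat.2 hw⟩
      exact_mod_cast hw0
  · rintro x y ⟨hx, _, hy, _⟩
    exact ⟨hx, hy⟩
  · rintro n m ⟨_, ⟨q, hq, h0⟩, _, h2⟩
    refine Nat.mem_rfind.2 ⟨?_, ?_⟩
    · rw [PP_nat'.1 hq, ← Nat.cast_zero, G_nat] at h0
      simp only [Part.map_eq_map, Part.mem_map_iff, decide_eq_true_eq, exists_eq_right]
      exact h0
    · intro j hj
      obtain ⟨q, w, hq, hw, h3⟩ := h2 j (Nat.cast_lt.2 hj)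
      obtain ⟨_, w, _, rfl, _⟩ := id h3
      rw [PP_nat'.1 hq, G_nat] at h3
      simp only [Part.map_eq_map, Part.mem_map_iff, decide_eq_false_iff_not]
      exact ⟨w, h3, by exact_mod_cast hw⟩

lemma prec_iff (f h : ℕ →. ℕ) (a n m : ℕ) :
    m ∈ (Nat.rec (f a) (fun y IH => IH >>= fun i => h (Nat.pair a (Nat.pair y i))) n : Part ℕ) ↔
      ∃ s : ℕ → ℕ, s 0 ∈ f a ∧ (∀ i, i < n → s (i + 1) ∈ h (Nat.pair a (Nat.pair i (s i)))) ∧
        s n = m := by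
  induction n generalizing m with
  | zero =>
    constructor
    · intro hm; exact ⟨fun _ => m, hm, fun i hi => absurd hi (Nat.not_lt_zero i), rfl⟩
    · rintro ⟨s, h1, _, rfl⟩; exact h1
  | succ n ih =>
    simp only [Part.bind_eq_bind, Part.mem_bind_iff] at ih ⊢
    constructor
    · rintro ⟨k, hk, hm⟩
      obtain ⟨s, h1, h2, rfl⟩ := (ih k).1 hk
      refine ⟨fun i => if i ≤ n then s i else m, by simpa using h1, fun i hi => ?_, by simp⟩
      rcases Nat.lt_succ_iff_lt_or_eq.1 hi with h3 | rfl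
      · have e1 : i + 1 ≤ n := h3
        have e2 : i ≤ n := h3.le
        simp only [e1, e2, if_true]
        exact h2 i h3
      · have e1 : ¬ (i + 1 ≤ i) := by omega
        simp only [e1, le_refl, if_true, if_false]
        exact hm
    · rintro ⟨s, h1, h2, rfl⟩
      exact ⟨s n, (ih _).2 ⟨s, h1, fun i hi => h2 i (by omega), rfl⟩, h2 n (by omega)⟩

lemma gce_prec {B : Set M} (hω : CE B (fun v => v 0 ∈ omega M)) {f h : ℕ →. ℕ} (hf : GCE B f)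
    (hh : GCE B h) :
    GCE B (fun p => (Nat.rec (f p.unpair.1) (fun y IH => IH >>= fun i =>
      h (Nat.pair p.unpair.1 (Nat.pair y i))) p.unpair.2 : Part ℕ)) := by
  -- the relation, with variables `x y` the argument and the value
  have c : CE B (fun v => v 0 ∈ omega M ∧ ∃ a n c, PP (v 0) a n ∧
      (∀ i, i < c → ∀ s, s < c → ∀ t, t < c → Mem (pr i s) c → Mem (pr i t) c → s = t) ∧
      (∃ s, Mem (pr 0 s) c ∧ G f a s) ∧
      (n ∈ omega M ∧ ∀ i, i < n → ∃ s t q r, Mem (pr i s) c ∧ Mem (pr (i + 1) t) c ∧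
        PP q i s ∧ PP r a q ∧ G h r t) ∧ Mem (pr n (v 1)) c) := by
    refine CE.and hω ?_
    refine CE.ex (R := fun a v => ∃ n c, PP (v 0) a n ∧
      (∀ i, i < c → ∀ s, s < c → ∀ t, t < c → Mem (pr i s) c → Mem (pr i t) c → s = t) ∧
      (∃ s, Mem (pr 0 s) c ∧ G f a s) ∧
      (n ∈ omega M ∧ ∀ i, i < n → ∃ s t q r, Mem (pr i s) c ∧ Mem (pr (i + 1) t) c ∧
        PP q i s ∧ PP r a q ∧ G h r t) ∧ Mem (pr n (v 1)) c) ?_
    refine CE.ex (R := fun n v => ∃ c, PP (v 1) (v 0) n ∧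
      (∀ i, i < c → ∀ s, s < c → ∀ t, t < c → Mem (pr i s) c → Mem (pr i t) c → s = t) ∧
      (∃ s, Mem (pr 0 s) c ∧ G f (v 0) s) ∧
      (n ∈ omega M ∧ ∀ i, i < n → ∃ s t q r, Mem (pr i s) c ∧ Mem (pr (i + 1) t) c ∧
        PP q i s ∧ PP r (v 0) q ∧ G h r t) ∧ Mem (pr n (v 2)) c) ?_
    refine CE.ex (R := fun c v => PP (v 2) (v 1) (v 0) ∧
      (∀ i, i < c → ∀ s, s < c → ∀ t, t < c → Mem (pr i s) c → Mem (pr i t) c → s = t) ∧
      (∃ s, Mem (pr 0 s) c ∧ G f (v 1) s) ∧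
      (v 0 ∈ omega M ∧ ∀ i, i < v 0 → ∃ s t q r, Mem (pr i s) c ∧ Mem (pr (i + 1) t) c ∧
        PP q i s ∧ PP r (v 1) q ∧ G h r t) ∧ Mem (pr (v 0) (v 3)) c) ?_
    refine CE.and (CE.of_delta0 B (PP.delta0 (Tm.var 3) (Tm.var 2) (Tm.var 1)))
      (CE.and (CE.of_delta0 B ?_) (CE.and ?_ (CE.and ?_ (CE.of_delta0 B
        (Delta0.mem ((Tm.var 1).pr (Tm.var 4)) (Tm.var 0))))))
    · refine Delta0.ball' (R := fun i w => ∀ s, s < w 0 → ∀ t, t < w 0 → Mem (pr i s) (w 0) →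
        Mem (pr i t) (w 0) → s = t) (Tm.var 0) ?_
      refine Delta0.ball' (R := fun s w => ∀ t, t < w 1 → Mem (pr (w 0) s) (w 1) →
        Mem (pr (w 0) t) (w 1) → s = t) (Tm.var 1) ?_
      refine Delta0.ball' (R := fun t w => Mem (pr (w 1) (w 0)) (w 2) →
        Mem (pr (w 1) t) (w 2) → w 0 = t) (Tm.var 2) ?_
      exact (Delta0.mem ((Tm.var 2).pr (Tm.var 1)) (Tm.var 3)).imp
        ((Delta0.mem ((Tm.var 2).pr (Tm.var 0)) (Tm.var 3)).imp
          (Delta0.eq (Tm.var 1) (Tm.var 0)))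
    · refine CE.ex (R := fun s w => Mem (pr 0 s) (w 0) ∧ G f (w 2) s) ?_
      exact CE.and (CE.of_delta0 B (Delta0.mem ((Tm.const 0).pr (Tm.var 0)) (Tm.var 1)))
        (hf.sub (Tm.var 3) (Tm.var 0))
    · refine CE.ball hω (R := fun i w => ∃ s t q r, Mem (pr i s) (w 0) ∧
        Mem (pr (i + 1) t) (w 0) ∧ PP q i s ∧ PP r (w 2) q ∧ G h r t) (Tm.var 1) ?_
      refine CE.ex (R := fun s w => ∃ t q r, Mem (pr (w 0) s) (w 1) ∧
        Mem (pr (w 0 + 1) t) (w 1) ∧ PP q (w 0) s ∧ PP r (w 3) q ∧ G h r t) ?_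
      refine CE.ex (R := fun t w => ∃ q r, Mem (pr (w 1) (w 0)) (w 2) ∧
        Mem (pr (w 1 + 1) t) (w 2) ∧ PP q (w 1) (w 0) ∧ PP r (w 4) q ∧ G h r t) ?_
      refine CE.ex (R := fun q w => ∃ r, Mem (pr (w 2) (w 1)) (w 3) ∧
        Mem (pr (w 2 + 1) (w 0)) (w 3) ∧ PP q (w 2) (w 1) ∧ PP r (w 5) q ∧ G h r (w 0)) ?_
      refine CE.ex (R := fun r w => Mem (pr (w 3) (w 2)) (w 4) ∧
        Mem (pr (w 3 + 1) (w 1)) (w 4) ∧ PP (w 0) (w 3) (w 2) ∧ PP r (w 6) (w 0) ∧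
          G h r (w 1)) ?_
      refine CE.and (CE.of_delta0 B (Delta0.mem ((Tm.var 4).pr (Tm.var 3)) (Tm.var 5)))
        (CE.and (CE.of_delta0 B (Delta0.mem (((Tm.var 4).add (Tm.const 1)).pr (Tm.var 2))
          (Tm.var 5))) (CE.and (CE.of_delta0 B (PP.delta0 (Tm.var 1) (Tm.var 4) (Tm.var 3)))
          (CE.and (CE.of_delta0 B (PP.delta0 (Tm.var 0) (Tm.var 7) (Tm.var 1)))
            (hh.sub (Tm.var 0) (Tm.var 2)))))
  refine c.congr fun v => ?_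
  refine G_iff (R := fun x y => x ∈ omega M ∧ ∃ a n c, PP x a n ∧
      (∀ i, i < c → ∀ s, s < c → ∀ t, t < c → Mem (pr i s) c → Mem (pr i t) c → s = t) ∧
      (∃ s, Mem (pr 0 s) c ∧ G f a s) ∧
      (n ∈ omega M ∧ ∀ i, i < n → ∃ s t q r, Mem (pr i s) c ∧ Mem (pr (i + 1) t) c ∧
        PP q i s ∧ PP r a q ∧ G h r t) ∧ Mem (pr n y) c) ?_ ?_ ?_ _ _
  · intro p m hm
    obtain ⟨s, h1, h2, rfl⟩ := (prec_iff f h _ _ _).1 hm
    set a := p.unpair.1 with ha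
    set n := p.unpair.2 with hn
    obtain ⟨c, hc⟩ := exists_code_finite
      (S := (fun i : ℕ => pr (i : M) (s i : M)) '' (Set.Iic n)) ((Set.finite_Iic n).image _)
    have hmem : ∀ i : ℕ, i ≤ n → Mem (pr (i : M) (s i : M)) c := fun i hi =>
      (hc _).2 ⟨i, hi, rfl⟩
    refine ⟨⟨p, rfl⟩, (a : M), (n : M), c, PP_nat.2 (Nat.pair_unpair p).symm, ?_,
      ⟨(s 0 : M), ?_, G_nat.2 h1⟩, ⟨⟨n, rfl⟩, ?_⟩, hmem n le_rfl⟩
    · intro i _ u _ t _ hu ht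
      obtain ⟨j, _, hj⟩ := (hc _).1 hu
      obtain ⟨k, _, hk⟩ := (hc _).1 ht
      obtain ⟨e1, e2⟩ := pr_inj hj
      obtain ⟨e3, e4⟩ := pr_inj hk
      have : j = k := by
        have := e1.trans e3.symm
        exact_mod_cast this
      subst this
      rw [← e2, ← e4]
    · have := hmem 0 (Nat.zero_le n)
      rwa [Nat.cast_zero] at this
    · intro i hi
      obtain ⟨i, rfl⟩ := mem_omega_of_lt hi
      have hi' : i < n := Nat.cast_lt.1 hi
      refine ⟨(s i : M), (s (i + 1) : M), (Nat.pair i (s i) : ℕ),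
        (Nat.pair a (Nat.pair i (s i)) : ℕ), hmem i hi'.le, ?_, PP_nat.2 rfl, PP_nat.2 rfl,
        G_nat.2 (h2 i hi')⟩
      have := hmem (i + 1) hi'
      rwa [Nat.cast_succ] at this
  · rintro x y ⟨hx, a, n, c, hp, hU, ⟨s, hs, hs'⟩, ⟨hn, hst⟩, hy⟩
    refine ⟨hx, ?_⟩
    obtain ⟨n, rfl⟩ := hn
    have hU' : ∀ i s t : M, Mem (pr i s) c → Mem (pr i t) c → s = t := fun i s t h1 h2 =>
      hU i (lt_of_le_of_lt (le_pr_left _ _) h1.lt) s (lt_of_le_of_lt (le_pr_right _ _) h1.lt)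
        t (lt_of_le_of_lt (le_pr_right _ _) h2.lt) h1 h2
    cases n with
    | zero =>
      rw [Nat.cast_zero] at hy
      rw [hU' _ _ _ hy hs]
      obtain ⟨_, m, _, rfl, _⟩ := hs'
      exact ⟨m, rfl⟩
    | succ n =>
      obtain ⟨s, t, q, r, e1, e2, e3, e4, e5⟩ := hst (n : M) (Nat.cast_lt.2 (Nat.lt_succ_self n))
      rw [Nat.cast_succ] at hy
      rw [hU' _ _ _ hy e2]
      obtain ⟨_, m, _, rfl, _⟩ := e5
      exact ⟨m, rfl⟩
  · rintro p m ⟨hx, a, n, c, hp, hU, ⟨s, hs, hs'⟩, ⟨hn, hst⟩, hy⟩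
    have hU' : ∀ i s t : M, Mem (pr i s) c → Mem (pr i t) c → s = t := fun i s t h1 h2 =>
      hU i (lt_of_le_of_lt (le_pr_left _ _) h1.lt) s (lt_of_le_of_lt (le_pr_right _ _) h1.lt)
        t (lt_of_le_of_lt (le_pr_right _ _) h2.lt) h1 h2
    obtain ⟨⟨a, rfl⟩, _⟩ := PP_std hp hx
    obtain ⟨n, rfl⟩ := hn
    have hp' := PP_nat.1 hp
    subst hp'
    simp only [Nat.unpair_pair]
    have main : ∀ i : ℕ, i ≤ n → ∀ u : M, Mem (pr (i : M) u) c → ∃ k : ℕ, u = k ∧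
        k ∈ (Nat.rec (f a) (fun y IH => IH >>= fun i => h (Nat.pair a (Nat.pair y i))) i :
          Part ℕ) := by
      intro i
      induction i with
      | zero =>
        intro _ u hu
        rw [Nat.cast_zero] at hu
        rw [hU' _ _ _ hu hs]
        obtain ⟨_, k, _, rfl, _⟩ := id hs'
        have h6 : k ∈ f a := G_nat.1 hs'
        exact ⟨k, rfl, h6⟩
      | succ i ih =>
        intro hi u hu
        obtain ⟨s, t, q, r, e1, e2, e3, e4, e5⟩ := hst (i : M) (Nat.cast_lt.2 hi)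
        rw [Nat.cast_succ] at hu
        rw [hU' _ _ _ hu e2]
        obtain ⟨k, rfl, hk⟩ := ih (by omega) s e1
        rw [PP_nat'.1 e3] at e4
        rw [PP_nat'.1 e4] at e5
        obtain ⟨_, l, _, rfl, _⟩ := id e5
        refine ⟨l, rfl, ?_⟩
        simp only [Part.bind_eq_bind, Part.mem_bind_iff]
        exact ⟨k, by simpa only [Part.bind_eq_bind] using hk, G_nat.1 e5⟩
    obtain ⟨k, hk, hk'⟩ := main n le_rfl _ hy
    rw [Nat.cast_inj] at hk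
    rw [hk]
    exact hk'

theorem p_sim : P_SIM.{u} := by
  intro M _ _ _ B f g hfg hg
  obtain ⟨W, hW, hWg⟩ := hg
  -- the graph of `g`
  have hpr : ∀ x y : M, pr x y ∈ Gr M g ↔ G (g : ℕ →. ℕ) x y := by
    intro x y
    constructor
    · rintro ⟨n, hn⟩
      obtain ⟨rfl, rfl⟩ := pr_inj hn
      exact ⟨n, g n, rfl, rfl, Part.mem_some _⟩
    · rintro ⟨n, m, rfl, rfl, h⟩
      have : m = g n := Part.mem_some_iff.1 h
      subst this
      exact ⟨n, rfl⟩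
  have hgG : GCE B (g : ℕ →. ℕ) := by
    refine CE.of_nonmono (fun H₀ H₁ v => W (pr (v 0) (v 1)) H₀ H₁) ?_ fun v => ?_
    · refine hW.subst (σ := fun i w => match i with
        | 0 => pr (w 2) (w 3)
        | 1 => w 0
        | _ + 2 => w 1) fun i => ?_
      match i with
      | 0 => exact (Tm.var 2).pr (Tm.var 3)
      | 1 => exact Tm.var 0
      | i + 2 => exact Tm.var 1
    · rw [← hpr]; exact hWg _
  have hω : CE B (fun v => v 0 ∈ omega M) := by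
    refine (CE.ex (R := fun y v => G (g : ℕ →. ℕ) (v 0) y)
      (hgG.sub (Tm.var 1) (Tm.var 0))).congr fun v => ?_
    constructor
    · rintro ⟨n, hn⟩
      exact ⟨(g n : M), n, g n, hn.symm, rfl, Part.mem_some _⟩
    · rintro ⟨y, n, m, hn, _, _⟩
      exact ⟨n, hn.symm⟩
  have main : ∀ φ : ℕ →. ℕ, Nat.RecursiveIn {(g : ℕ →. ℕ)} φ → GCE B φ := by
    intro φ hφ
    induction hφ with
    | zero => exact gce_zero hω
    | succ => exact gce_succ hω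
    | left => exact gce_left hω
    | right => exact gce_right hω
    | oracle k hk =>
      rw [Set.mem_singleton_iff] at hk
      subst hk
      exact hgG
    | pair _ _ h1 h2 => exact gce_pair h1 h2
    | comp _ _ h1 h2 => exact gce_comp h1 h2
    | prec _ _ h1 h2 => exact gce_prec hω h1 h2
    | rfind _ h1 => exact gce_rfind hω h1
  have hf : GCE B (fun n => Part.some (f n)) := main _ hfg
  have hF : CE B (fun v => ∃ n m, v 0 = pr n m ∧ G (fun n => Part.some (f n)) n m) := by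
    refine CE.ex (R := fun n v => ∃ m, v 0 = pr n m ∧ G (fun n => Part.some (f n)) n m) ?_
    refine CE.ex (R := fun m v => v 1 = pr (v 0) m ∧ G (fun n => Part.some (f n)) (v 0) m) ?_
    exact CE.and (CE.of_delta0 B (Delta0.eq (Tm.var 2) ((Tm.var 1).pr (Tm.var 0))))
      (hf.sub (Tm.var 1) (Tm.var 0))
  obtain ⟨V, h1, _, h3⟩ := hF
  refine ⟨fun y H₀ H₁ => V H₀ H₁ (fun _ => y), ?_, fun y => ?_⟩
  · exact sub_sigma1 h1 (Tm.var 1) (Tm.var 2) (σ := fun _ w => w 0) fun _ => Tm.var 0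
  · rw [← h3]
    constructor
    · rintro ⟨n, rfl⟩
      exact ⟨(n : M), (f n : M), rfl, n, f n, rfl, rfl, Part.mem_some _⟩
    · rintro ⟨x, z, h, n, m, rfl, rfl, hm⟩
      have : m = f n := Part.mem_some_iff.1 hm
      subst this
      exact ⟨n, h⟩

end Pool.Agent.W2helper52.MC
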