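import Pool.Agent.W2helper52.MC.Sim

/-!
Project MC (problem MP_6072c5_lc), piece UP.
-/

set_option autoImplicit false
set_option linter.unusedSectionVars false

universe u

namespace Pool.Agent.W2helper52.MC

open Pool.Agent.Helper743 (TR RecT join pre)
open Pool.Agent.Helper425.PA
open Pool.Agent.W2helper89.MC

variable {M : Type u} [CommSemiring M] [LinearOrder M] [PeanoModel M]

lemma CE.or {B : Set M} {R S : (ℕ → M) → Prop} (hR : CE B R) (hS : CE B S) :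
    CE B (fun v => R v ∨ S v) := by
  obtain ⟨W, h1, h2, h3⟩ := hR
  obtain ⟨V, k1, k2, k3⟩ := hS
  refine ⟨fun H₀ H₁ v => W H₀ H₁ v ∨ V H₀ H₁ v, Sigma1.or h1 k1,
    fun H₀ H₁ K₀ K₁ v h h' hh => hh.imp (h2 _ _ _ _ _ h h') (k2 _ _ _ _ _ h h'), fun v => ?_⟩
  simp only
  rw [h3, k3]
  constructor
  · rintro (⟨H₀, H₁, a, b, c⟩ | ⟨H₀, H₁, a, b, c⟩)
    · exact ⟨H₀, H₁, a, b, Or.inl c⟩
    · exact ⟨H₀, H₁, a, b, Or.inr c⟩
  · rintro ⟨H₀, H₁, a, b, c | c⟩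
    · exact Or.inl ⟨H₀, H₁, a, b, c⟩
    · exact Or.inr ⟨H₀, H₁, a, b, c⟩

/-- inclusion of an `M`-finite set in the oracle -/
lemma CE.sub_oracle (B : Set M) {f : (ℕ → M) → M} (hf : Tm f) :
    CE B (fun v => El (f v) ⊆ B) := by
  obtain ⟨k, hk⟩ := exists_empty (M := M)
  refine CE.of_nonmono (fun H₀ _ v => ∀ x, Mem x (f v) → Mem x H₀) ?_ fun v => ?_
  · exact (Delta0.ballMem hf.tail.tail (Delta0.mem (Tm.var 0) (Tm.var 1))).sigma1
  · constructor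
    · intro h
      exact ⟨f v, k, h, by rw [hk]; exact Set.empty_subset _, fun x hx => hx⟩
    · rintro ⟨H₀, H₁, a, b, c⟩ x hx
      exact a (c x hx)

/-- inclusion of an `M`-finite set in the complement of the oracle -/
lemma CE.sub_compl (B : Set M) {f : (ℕ → M) → M} (hf : Tm f) :
    CE B (fun v => El (f v) ⊆ Bᶜ) := by
  obtain ⟨k, hk⟩ := exists_empty (M := M)
  refine CE.of_nonmono (fun _ H₁ v => ∀ x, Mem x (f v) → Mem x H₁) ?_ fun v => ?_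
  · exact (Delta0.ballMem hf.tail.tail (Delta0.mem (Tm.var 0) (Tm.var 2))).sigma1
  · constructor
    · intro h
      exact ⟨k, f v, by rw [hk]; exact Set.empty_subset _, h, fun x hx => hx⟩
    · rintro ⟨H₀, H₁, a, b, c⟩ x hx
      exact b (c x hx)

lemma CE.mem_oracle (B : Set M) {f : (ℕ → M) → M} (hf : Tm f) : CE B (fun v => f v ∈ B) := by
  refine (CE.ex (R := fun k v => Mem (f v) k ∧ El k ⊆ B) (CE.and (CE.of_delta0 B
    (Delta0.mem hf.tail (Tm.var 0))) (CE.sub_oracle B (Tm.var 0)))).congr fun v => ?_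
  constructor
  · intro h
    obtain ⟨k, hk⟩ := exists_code_single (f v)
    refine ⟨k, (hk _).2 rfl, fun x hx => ?_⟩
    rw [(hk x).1 hx]; exact h
  · rintro ⟨k, h1, h2⟩; exact h2 h1

lemma CE.mem_compl (B : Set M) {f : (ℕ → M) → M} (hf : Tm f) : CE B (fun v => f v ∈ Bᶜ) := by
  refine (CE.ex (R := fun k v => Mem (f v) k ∧ El k ⊆ Bᶜ) (CE.and (CE.of_delta0 B
    (Delta0.mem hf.tail (Tm.var 0))) (CE.sub_compl B (Tm.var 0)))).congr fun v => ?_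
  constructor
  · intro h
    obtain ⟨k, hk⟩ := exists_code_single (f v)
    refine ⟨k, (hk _).2 rfl, fun x hx => ?_⟩
    rw [(hk x).1 hx]; exact h
  · rintro ⟨k, h1, h2⟩; exact h2 h1

lemma CE.of_cein {B S : Set M} (h : CEin B S) {f : (ℕ → M) → M} (hf : Tm f) :
    CE B (fun v => f v ∈ S) := by
  obtain ⟨W, hW, hWg⟩ := h
  refine CE.of_nonmono (fun H₀ H₁ v => W (f v) H₀ H₁) ?_ fun v => hWg _
  refine hW.subst (σ := fun i w => match i with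
    | 0 => f (fun j => w (j + 2))
    | 1 => w 0
    | _ + 2 => w 1) fun i => ?_
  match i with
  | 0 => exact hf.tail.tail
  | 1 => exact Tm.var 0
  | i + 2 => exact Tm.var 1

lemma pr_mem_Gr {g : ℕ → ℕ} {x y : M} : pr x y ∈ Gr M g ↔ G (g : ℕ →. ℕ) x y := by
  constructor
  · rintro ⟨n, hn⟩
    obtain ⟨rfl, rfl⟩ := pr_inj hn
    exact ⟨n, g n, rfl, rfl, Part.mem_some _⟩
  · rintro ⟨n, m, rfl, rfl, h⟩
    have : m = g n := Part.mem_some_iff.1 h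
    subst this
    exact ⟨n, rfl⟩

lemma gce_of_cein {B : Set M} {g : ℕ → ℕ} (h : CEin B (Gr M g)) : GCE B (g : ℕ →. ℕ) :=
  (CE.of_cein h ((Tm.var 0).pr (Tm.var 1))).congr fun _ => pr_mem_Gr.symm

lemma om_of_gce {B : Set M} {g : ℕ → ℕ} (h : GCE B (g : ℕ →. ℕ)) :
    CE B (fun v => v 0 ∈ omega M) := by
  refine (CE.ex (R := fun y v => G (g : ℕ →. ℕ) (v 0) y)
    (h.sub (Tm.var 1) (Tm.var 0))).congr fun v => ?_
  constructor
  · rintro ⟨n, hn⟩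
    exact ⟨(g n : M), n, g n, hn.symm, rfl, Part.mem_some _⟩
  · rintro ⟨y, n, m, hn, _, _⟩
    exact ⟨n, hn.symm⟩

lemma gce_of_rec {B : Set M} {g : ℕ → ℕ} (hg : GCE B (g : ℕ →. ℕ)) {φ : ℕ →. ℕ}
    (hφ : Nat.RecursiveIn {(g : ℕ →. ℕ)} φ) : GCE B φ := by
  have hω := om_of_gce hg
  induction hφ with
  | zero => exact gce_zero hω
  | succ => exact gce_succ hω
  | left => exact gce_left hω
  | right => exact gce_right hω
  | oracle k hk =>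
    rw [Set.mem_singleton_iff] at hk
    subst hk
    exact hg
  | pair _ _ h1 h2 => exact gce_pair h1 h2
  | comp _ _ h1 h2 => exact gce_comp h1 h2
  | prec _ _ h1 h2 => exact gce_prec hω h1 h2
  | rfind _ h1 => exact gce_rfind hω h1

lemma Gt {g : ℕ → ℕ} {n m : ℕ} : G (g : ℕ →. ℕ) (n : M) m ↔ m = g n := by
  rw [G_nat]; exact Part.mem_some_iff

lemma pr_mem_Px {x : ℕ → M} {i : ℕ} {z : M} : pr (i : M) z ∈ Px x ↔ z = x i := by
  constructor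
  · rintro ⟨n, hn⟩
    obtain ⟨h1, rfl⟩ := pr_inj hn
    rw [Nat.cast_inj.1 h1]
  · rintro rfl; exact ⟨i, rfl⟩

lemma sh_even {x : ℕ → M} {A : Set M} {i : ℕ} : sh x A (i + i) = 1 ↔ El (x i) ⊆ A := by
  have h1 : Even (i + i) := ⟨i, rfl⟩
  have h2 : (i + i) / 2 = i := by omega
  unfold sh
  rw [if_pos h1, h2]
  by_cases h : El (x i) ⊆ A
  · simp [h]
  · simp [h]

lemma sh_odd {x : ℕ → M} {A : Set M} {i : ℕ} : sh x A (i + i + 1) = 1 ↔ El (x i) ⊆ Aᶜ := by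
  have h1 : ¬ Even (i + i + 1) := by
    rw [Nat.not_even_iff_odd]; exact ⟨i, by ring⟩
  have h2 : (i + i + 1) / 2 = i := by omega
  unfold sh
  rw [if_neg h1, h2]
  by_cases h : El (x i) ⊆ Aᶜ
  · simp [h]
  · simp [h]

lemma sh_zero_or_one (x : ℕ → M) (A : Set M) (k : ℕ) : sh x A k = 0 ∨ sh x A k = 1 := by
  unfold sh
  split_ifs <;> simp

lemma gce_sh {x : ℕ → M} {B : Set M} (hx : CEin B (Px x)) :
    GCE B (sh x B : ℕ →. ℕ) := by
  have c : CE B (fun v => ∃ i z, pr i z ∈ Px x ∧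
      (((v 0 = i + i ∧ v 1 = 1) ∧ El z ⊆ B) ∨
      (((v 0 = i + i ∧ v 1 = 0) ∧ ∃ w, Mem w z ∧ w ∈ Bᶜ) ∨
      (((v 0 = i + i + 1 ∧ v 1 = 1) ∧ El z ⊆ Bᶜ) ∨
      ((v 0 = i + i + 1 ∧ v 1 = 0) ∧ ∃ w, Mem w z ∧ w ∈ B))))) := by
    refine CE.ex (R := fun i v => ∃ z, pr i z ∈ Px x ∧
      (((v 0 = i + i ∧ v 1 = 1) ∧ El z ⊆ B) ∨
      (((v 0 = i + i ∧ v 1 = 0) ∧ ∃ w, Mem w z ∧ w ∈ Bᶜ) ∨
      (((v 0 = i + i + 1 ∧ v 1 = 1) ∧ El z ⊆ Bᶜ) ∨
      ((v 0 = i + i + 1 ∧ v 1 = 0) ∧ ∃ w, Mem w z ∧ w ∈ B))))) ?_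
    refine CE.ex (R := fun z v => pr (v 0) z ∈ Px x ∧
      (((v 1 = v 0 + v 0 ∧ v 2 = 1) ∧ El z ⊆ B) ∨
      (((v 1 = v 0 + v 0 ∧ v 2 = 0) ∧ ∃ w, Mem w z ∧ w ∈ Bᶜ) ∨
      (((v 1 = v 0 + v 0 + 1 ∧ v 2 = 1) ∧ El z ⊆ Bᶜ) ∨
      ((v 1 = v 0 + v 0 + 1 ∧ v 2 = 0) ∧ ∃ w, Mem w z ∧ w ∈ B))))) ?_
    have d1 : ∀ c : M, CE B (fun v => v 2 = v 1 + v 1 ∧ v 3 = c) := fun c =>
      CE.of_delta0 B (Delta0.and (Delta0.eq (Tm.var 2) ((Tm.var 1).add (Tm.var 1)))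
        (Delta0.eq (Tm.var 3) (Tm.const c)))
    have d2 : ∀ c : M, CE B (fun v => v 2 = v 1 + v 1 + 1 ∧ v 3 = c) := fun c =>
      CE.of_delta0 B (Delta0.and (Delta0.eq (Tm.var 2) (((Tm.var 1).add (Tm.var 1)).add
        (Tm.const 1))) (Delta0.eq (Tm.var 3) (Tm.const c)))
    refine CE.and (CE.of_cein hx ((Tm.var 1).pr (Tm.var 0))) (CE.or (CE.and (d1 1)
      (CE.sub_oracle B (Tm.var 0))) (CE.or (CE.and (d1 0) ?_) (CE.or (CE.and (d2 1)
      (CE.sub_compl B (Tm.var 0))) (CE.and (d2 0) ?_))))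
    · exact CE.ex (R := fun w v => Mem w (v 0) ∧ w ∈ Bᶜ) (CE.and (CE.of_delta0 B
        (Delta0.mem (Tm.var 0) (Tm.var 1))) (CE.mem_compl B (Tm.var 0)))
    · exact CE.ex (R := fun w v => Mem w (v 0) ∧ w ∈ B) (CE.and (CE.of_delta0 B
        (Delta0.mem (Tm.var 0) (Tm.var 1))) (CE.mem_oracle B (Tm.var 0)))
  refine c.congr fun v => ?_
  refine G_iff (R := fun y m => ∃ i z, pr i z ∈ Px x ∧
      (((y = i + i ∧ m = 1) ∧ El z ⊆ B) ∨
      (((y = i + i ∧ m = 0) ∧ ∃ w, Mem w z ∧ w ∈ Bᶜ) ∨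
      (((y = i + i + 1 ∧ m = 1) ∧ El z ⊆ Bᶜ) ∨
      ((y = i + i + 1 ∧ m = 0) ∧ ∃ w, Mem w z ∧ w ∈ B))))) ?_ ?_ ?_ _ _
  · intro n m h
    have hm : m = sh x B n := Part.mem_some_iff.1 h
    subst hm
    rcases Nat.even_or_odd' n with ⟨i, rfl | rfl⟩
    · have e : 2 * i = i + i := by ring
      rw [e]
      refine ⟨(i : M), x i, pr_mem_Px.2 rfl, ?_⟩
      rcases sh_zero_or_one x B (i + i) with h0 | h0
      · refine Or.inr (Or.inl ⟨⟨by push_cast; ring, by rw [h0, Nat.cast_zero]⟩, ?_⟩)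
        have h1 : ¬ El (x i) ⊆ B := fun h => by
          rw [← sh_even, h0] at h; exact absurd h zero_ne_one
        rw [Set.not_subset] at h1
        obtain ⟨w, hw, hw'⟩ := h1
        exact ⟨w, hw, hw'⟩
      · exact Or.inl ⟨⟨by push_cast; ring, by rw [h0, Nat.cast_one]⟩, sh_even.1 h0⟩
    · have e : 2 * i + 1 = i + i + 1 := by ring
      rw [e]
      refine ⟨(i : M), x i, pr_mem_Px.2 rfl, ?_⟩
      rcases sh_zero_or_one x B (i + i + 1) with h0 | h0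
      · refine Or.inr (Or.inr (Or.inr ⟨⟨by push_cast; ring, by rw [h0, Nat.cast_zero]⟩, ?_⟩))
        have h1 : ¬ El (x i) ⊆ Bᶜ := fun h => by
          rw [← sh_odd, h0] at h; exact absurd h zero_ne_one
        rw [Set.not_subset] at h1
        obtain ⟨w, hw, hw'⟩ := h1
        exact ⟨w, hw, not_not.1 hw'⟩
      · exact Or.inr (Or.inr (Or.inl ⟨⟨by push_cast; ring, by rw [h0, Nat.cast_one]⟩,
          sh_odd.1 h0⟩))
  · rintro y m ⟨i, z, ⟨n, hn⟩, h⟩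
    obtain ⟨rfl, rfl⟩ := pr_inj hn
    rcases h with ⟨⟨rfl, rfl⟩, _⟩ | ⟨⟨rfl, rfl⟩, _⟩ | ⟨⟨rfl, rfl⟩, _⟩ | ⟨⟨rfl, rfl⟩, _⟩
    · exact ⟨⟨n + n, by push_cast; rfl⟩, ⟨1, Nat.cast_one⟩⟩
    · exact ⟨⟨n + n, by push_cast; rfl⟩, ⟨0, Nat.cast_zero⟩⟩
    · exact ⟨⟨n + n + 1, by push_cast; rfl⟩, ⟨1, Nat.cast_one⟩⟩
    · exact ⟨⟨n + n + 1, by push_cast; rfl⟩, ⟨0, Nat.cast_zero⟩⟩
  · rintro k m ⟨i, z, ⟨n, hn⟩, h⟩
    obtain ⟨rfl, rfl⟩ := pr_inj hn
    refine Part.mem_some_iff.2 ?_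
    rcases h with ⟨⟨h1, h2⟩, h3⟩ | ⟨⟨h1, h2⟩, w, hw, hw'⟩ | ⟨⟨h1, h2⟩, h3⟩ |
      ⟨⟨h1, h2⟩, w, hw, hw'⟩
    · have e1 : k = n + n := by exact_mod_cast h1
      have e2 : m = 1 := by exact_mod_cast h2
      subst e1 e2
      exact (sh_even.2 h3).symm
    · have e1 : k = n + n := by exact_mod_cast h1
      have e2 : m = 0 := by exact_mod_cast h2
      subst e1 e2
      rcases sh_zero_or_one x B (n + n) with h0 | h0
      · exact h0.symm
      · exact absurd (sh_even.1 h0 hw) hw'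
    · have e1 : k = n + n + 1 := by exact_mod_cast h1
      have e2 : m = 1 := by exact_mod_cast h2
      subst e1 e2
      exact (sh_odd.2 h3).symm
    · have e1 : k = n + n + 1 := by exact_mod_cast h1
      have e2 : m = 0 := by exact_mod_cast h2
      subst e1 e2
      rcases sh_zero_or_one x B (n + n + 1) with h0 | h0
      · exact h0.symm
      · exact absurd hw' (sh_odd.1 h0 hw)

theorem p_up : P_UP.{u} := by
  intro _ M _ _ _ x hx e A B hPx he hAB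
  have h1 : GCE B (sh x B : ℕ →. ℕ) := gce_sh hPx
  have h2 : GCE B (e : ℕ →. ℕ) := gce_of_cein he
  have h3 : GCE B (join (sh x B) e : ℕ →. ℕ) := by
    have := gce_pair h1 h2
    have e1 : (fun n => (Nat.pair <$> (sh x B : ℕ →. ℕ) n <*> (e : ℕ →. ℕ) n)) =
        (join (sh x B) e : ℕ →. ℕ) := by
      funext n
      simp [Seq.seq, join]
    rw [e1] at this
    exact this
  have h4 : GCE B (fun n => Part.some (sh x A n)) := gce_of_rec h3 hAB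
  have h4' : GCE B (sh x A : ℕ →. ℕ) := h4
  have c : CE B (fun v => (v 1 = 1 ∧ ∃ i, pr i (v 0) ∈ Px x ∧
        G (sh x A : ℕ →. ℕ) (i + i) 1) ∨
      (v 1 = 0 ∧ ∃ i, pr i (v 0) ∈ Px x ∧ G (sh x A : ℕ →. ℕ) (i + i + 1) 1)) := by
    refine CE.or (CE.and (CE.of_delta0 B (Delta0.eq (Tm.var 1) (Tm.const 1))) ?_)
      (CE.and (CE.of_delta0 B (Delta0.eq (Tm.var 1) (Tm.const 0))) ?_)
    · exact CE.ex (R := fun i v => pr i (v 0) ∈ Px x ∧ G (sh x A : ℕ →. ℕ) (i + i) 1)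
        (CE.and (CE.of_cein hPx ((Tm.var 0).pr (Tm.var 1)))
          (h4'.sub ((Tm.var 0).add (Tm.var 0)) (Tm.const 1)))
    · exact CE.ex (R := fun i v => pr i (v 0) ∈ Px x ∧ G (sh x A : ℕ →. ℕ) (i + i + 1) 1)
        (CE.and (CE.of_cein hPx ((Tm.var 0).pr (Tm.var 1)))
          (h4'.sub (((Tm.var 0).add (Tm.var 0)).add (Tm.const 1)) (Tm.const 1)))
  obtain ⟨W, s1, _, s3⟩ := c
  let as : M → M → ℕ → M := fun K i j => match j with
    | 0 => K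
    | _ + 1 => i
  refine ⟨fun K i H₀ H₁ => W H₀ H₁ (as K i), ?_, fun K => ?_⟩
  · refine (sub_sigma1 s1 (Tm.var 2) (Tm.var 3) (σ := fun j w => as (w 0) (w 1) j) fun j => ?_)
    match j with
    | 0 => exact Tm.var 0
    | j + 1 => exact Tm.var 1
  obtain ⟨i, rfl⟩ := hx K
  have t1 := s3 (as (x i) 1)
  have t0 := s3 (as (x i) 0)
  simp only [as] at t1 t0
  refine ⟨?_, ?_⟩
  · rw [← t1]
    constructor
    · intro h
      refine Or.inl ⟨trivial, (i : M), pr_mem_Px.2 rfl, ?_⟩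
      have := (Gt (M := M) (g := sh x A) (n := i + i) (m := 1)).2 (sh_even.2 h).symm
      push_cast at this
      exact this
    · rintro (⟨_, k, hk, hG⟩ | ⟨h, _⟩)
      · obtain ⟨n, hn⟩ := hk
        obtain ⟨rfl, hn'⟩ := pr_inj hn
        rw [hn']
        have := (Gt (M := M) (g := sh x A) (n := n + n) (m := 1)).1 (by push_cast; exact hG)
        exact sh_even.1 this.symm
      · exact absurd h one_ne_zero
  · rw [← t0]
    constructor
    · intro h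
      refine Or.inr ⟨trivial, (i : M), pr_mem_Px.2 rfl, ?_⟩
      have := (Gt (M := M) (g := sh x A) (n := i + i + 1) (m := 1)).2 (sh_odd.2 h).symm
      push_cast at this
      exact this
    · rintro (⟨h, _⟩ | ⟨_, k, hk, hG⟩)
      · exact absurd h.symm one_ne_zero
      · obtain ⟨n, hn⟩ := hk
        obtain ⟨rfl, hn'⟩ := pr_inj hn
        rw [hn']
        have := (Gt (M := M) (g := sh x A) (n := n + n + 1) (m := 1)).1 (by push_cast; exact hG)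
        exact sh_odd.1 this.symm

end Pool.Agent.W2helper52.MC
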